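import Pool.Agent.E8helper62.GB.CSa

set_option autoImplicit false

/-! Two Cauchy-Schwarz steps and geometric sums. -/

namespace Pool.Agent.E8helper62.GB

open Finset
open Pool.Agent.H807R2.Dav (ee ee_add norm_ee)
open Pool.Agent.E8helper66.GB
open scoped ComplexConjugate

lemma conj_ee (x : ℝ) : conj (ee x) = ee (-x) := by
  unfold Pool.Agent.H807R2.Dav.ee
  rw [← Complex.exp_conj]
  congr 1
  rw [map_mul, map_mul, map_mul, Complex.conj_I, Complex.conj_ofReal, Complex.conj_ofReal,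
    map_ofNat]
  push_cast
  ring

/-- the terms of the sum over `l` -/
noncomputable def uu (X X' : ℕ) (κ : ℤ → ℂ) (θ : ℤ → ℝ) (l : ℕ) (p : ℕ × ℕ) : ℂ :=
  if X < p.1 * l ∧ p.1 * l ≤ X' then
    κ ((p.2 : ℤ) - ((p.1 * l : ℕ) : ℤ)) *
      ee (θ ((p.2 : ℤ) - ((p.1 * l : ℕ) : ℤ)) * ((p.1 * l : ℕ) : ℝ)) else 0

lemma BB_eq (M L X X' N : ℕ) (E : ℕ → ℂ) (κ : ℤ → ℂ) (θ : ℤ → ℝ) (a b : ℕ → ℂ) :
    BB M L X X' a b (FF N E κ θ) = ∑ p ∈ Ioc M (2 * M) ×ˢ Icc 1 N,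
      (a p.1 * E p.2) * ∑ l ∈ Ioc L (2 * L), b l * uu X X' κ θ l p := by
  unfold BB FF uu
  rw [Finset.sum_product]
  refine Finset.sum_congr rfl fun m _ => ?_
  simp only
  have h1 : ∀ l ∈ Ioc L (2 * L), a m * b l * (if X < m * l ∧ m * l ≤ X' then
      ∑ y ∈ Icc 1 N, E y * (κ ((y : ℤ) - ((m * l : ℕ) : ℤ)) *
        ee (θ ((y : ℤ) - ((m * l : ℕ) : ℤ)) * ((m * l : ℕ) : ℝ))) else 0) =
      ∑ y ∈ Icc 1 N, (a m * E y) * (b l * if X < m * l ∧ m * l ≤ X' then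
        κ ((y : ℤ) - ((m * l : ℕ) : ℤ)) *
        ee (θ ((y : ℤ) - ((m * l : ℕ) : ℤ)) * ((m * l : ℕ) : ℝ)) else 0) := by
    intro l _
    split_ifs with h
    · rw [Finset.mul_sum]
      refine Finset.sum_congr rfl fun y _ => ?_
      ring
    · simp
  rw [Finset.sum_congr rfl h1, Finset.sum_comm]
  refine Finset.sum_congr rfl fun y _ => ?_
  rw [Finset.mul_sum]

/-- the condition -/
def Cd (N X X' : ℕ) (p : ℕ × ℤ) (q : ℕ × ℕ) : Prop :=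
  (X < p.1 * q.1 ∧ p.1 * q.1 ≤ X') ∧ (X < p.1 * q.2 ∧ p.1 * q.2 ≤ X') ∧
    1 ≤ p.2 + p.1 * q.1 ∧ p.2 + p.1 * q.1 ≤ N

instance (N X X' : ℕ) (p : ℕ × ℤ) (q : ℕ × ℕ) : Decidable (Cd N X X' p q) := by
  unfold Cd; infer_instance

/-- the constant factor -/
noncomputable def zc (κ : ℤ → ℂ) (θ : ℤ → ℝ) (k : ℤ) (p : ℕ × ℤ) : ℂ :=
  κ p.2 * conj (κ (p.2 + p.1 * k)) * ee (p.1 * k * θ (p.2 + p.1 * k))

/-- the frequency -/
noncomputable def bt (θ : ℤ → ℝ) (k : ℤ) (p : ℕ × ℤ) : ℝ :=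
  (p.1 : ℝ) * (θ p.2 - θ (p.2 + p.1 * k))

/-- the terms after the change of variables -/
noncomputable def ww (N X X' : ℕ) (κ : ℤ → ℂ) (θ : ℤ → ℝ) (p : ℕ × ℤ) (q : ℕ × ℕ) : ℂ :=
  if Cd N X X' p q then zc κ θ ((q.1 : ℤ) - q.2) p * ee (q.1 * bt θ ((q.1 : ℤ) - q.2) p) else 0

lemma uu_mul (X X' : ℕ) (κ : ℤ → ℂ) (θ : ℤ → ℝ) (m y : ℕ) (q : ℕ × ℕ)
    (h1 : X < m * q.1 ∧ m * q.1 ≤ X') (h2 : X < m * q.2 ∧ m * q.2 ≤ X') :
    uu X X' κ θ q.1 (m, y) * conj (uu X X' κ θ q.2 (m, y)) =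
      zc κ θ ((q.1 : ℤ) - q.2) (m, (y : ℤ) - ((m * q.1 : ℕ) : ℤ)) *
        ee (q.1 * bt θ ((q.1 : ℤ) - q.2) (m, (y : ℤ) - ((m * q.1 : ℕ) : ℤ))) := by
  unfold uu zc bt
  simp only
  rw [if_pos h1, if_pos h2]
  have e1 : (y : ℤ) - ((m * q.1 : ℕ) : ℤ) + (m : ℤ) * ((q.1 : ℤ) - q.2) =
      (y : ℤ) - ((m * q.2 : ℕ) : ℤ) := by push_cast; ring
  rw [e1, map_mul, conj_ee]
  obtain ⟨s, hs⟩ : ∃ s, s = θ ((y : ℤ) - ((m * q.1 : ℕ) : ℤ)) := ⟨_, rfl⟩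
  obtain ⟨t, ht⟩ : ∃ t, t = θ ((y : ℤ) - ((m * q.2 : ℕ) : ℤ)) := ⟨_, rfl⟩
  rw [← hs, ← ht]
  have e2 : ee (s * ((m * q.1 : ℕ) : ℝ)) * ee (-(t * ((m * q.2 : ℕ) : ℝ))) =
      ee ((m : ℝ) * (((q.1 : ℤ) - (q.2 : ℤ) : ℤ) : ℝ) * t) * ee ((q.1 : ℝ) * ((m : ℝ) * (s - t))) := by
    rw [← ee_add, ← ee_add]
    congr 1
    push_cast
    ring
  calc _ = κ ((y : ℤ) - ((m * q.1 : ℕ) : ℤ)) * conj (κ ((y : ℤ) - ((m * q.2 : ℕ) : ℤ))) *
        (ee (s * ((m * q.1 : ℕ) : ℝ)) * ee (-(t * ((m * q.2 : ℕ) : ℝ)))) := by ring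
    _ = _ := by
      rw [e2]
      push_cast
      ring

lemma change (N M X X' : ℕ) (hX' : X' ≤ N) (κ : ℤ → ℂ) (θ : ℤ → ℝ) (q : ℕ × ℕ) :
    ∑ p ∈ Ioc M (2 * M) ×ˢ Icc 1 N, uu X X' κ θ q.1 p * conj (uu X X' κ θ q.2 p) =
      ∑ p ∈ Ioc M (2 * M) ×ˢ Icc (-(N : ℤ)) N, ww N X X' κ θ p q := by
  rw [Finset.sum_product, Finset.sum_product]
  refine Finset.sum_congr rfl fun m _ => ?_
  by_cases h : (X < m * q.1 ∧ m * q.1 ≤ X') ∧ (X < m * q.2 ∧ m * q.2 ≤ X')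
  · rw [Finset.sum_congr rfl fun y _ => uu_mul X X' κ θ m y q h.1 h.2]
    unfold ww
    rw [← Finset.sum_filter]
    refine Finset.sum_nbij' (fun y : ℕ => (y : ℤ) - ((m * q.1 : ℕ) : ℤ))
      (fun h : ℤ => (h + ((m * q.1 : ℕ) : ℤ)).toNat) ?_ ?_ ?_ ?_ ?_
    · intro y hy
      rw [mem_Icc] at hy
      rw [mem_filter, mem_Icc]
      refine ⟨⟨?_, ?_⟩, h.1, h.2, ?_, ?_⟩
      · have := h.1.2
        omega
      · have := h.1.2
        omega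
      · push_cast
        omega
      · push_cast
        omega
    · intro t ht
      rw [mem_filter, mem_Icc] at ht
      obtain ⟨⟨t1, t2⟩, -, -, t3, t4⟩ := ht
      simp only at t3 t4
      rw [mem_Icc]
      push_cast
      omega
    · intro y hy
      simp
    · intro t ht
      rw [mem_filter, mem_Icc] at ht
      obtain ⟨⟨t1, t2⟩, -, -, t3, t4⟩ := ht
      simp only at t3 t4
      push_cast
      omega
    · intro y hy
      rfl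
  · have h1 : ∀ y ∈ Icc 1 N, uu X X' κ θ q.1 (m, y) * conj (uu X X' κ θ q.2 (m, y)) = 0 := by
      intro y _
      unfold uu
      simp only
      rcases not_and_or.1 h with h' | h'
      · rw [if_neg h', zero_mul]
      · rw [if_neg h', map_zero, mul_zero]
    have h2 : ∀ t ∈ Icc (-(N : ℤ)) N, ww N X X' κ θ (m, t) q = 0 := by
      intro t _
      unfold ww
      rw [if_neg]
      rintro ⟨c1, c2, -⟩
      exact h ⟨c1, c2⟩
    rw [Finset.sum_eq_zero h1, Finset.sum_eq_zero h2]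

/-- the pairs with difference `k` -/
def Sk (L : ℕ) (k : ℤ) : Finset (ℕ × ℕ) :=
  (Ioc L (2 * L) ×ˢ Ioc L (2 * L)).filter fun q => (q.1 : ℤ) - q.2 = k

lemma sum_k (L : ℕ) (f : ℕ × ℕ → ℂ) :
    ∑ q ∈ Ioc L (2 * L) ×ˢ Ioc L (2 * L), f q = ∑ k ∈ Icc (-(L : ℤ)) L, ∑ q ∈ Sk L k, f q := by
  unfold Sk
  rw [Finset.sum_fiberwise_of_maps_to]
  intro q hq
  rw [mem_product, mem_Ioc, mem_Ioc] at hq
  rw [mem_Icc]
  omega

/-- one pair of points -/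
lemma pair_sum (N L X X' : ℕ) (κ : ℤ → ℂ) (θ : ℤ → ℝ) (hκ : ∀ h, ‖κ h‖ ≤ 1) (k : ℤ)
    (p1 p2 : ℕ × ℤ) :
    ∃ J : Finset ℕ, (J.card ≤ L) ∧ (∀ a ∈ J, ∀ b ∈ J, ∀ c, a ≤ c → c ≤ b → c ∈ J) ∧
      ‖∑ q ∈ Sk L k, ww N X X' κ θ p1 q * conj (ww N X X' κ θ p2 q)‖ ≤
        ‖∑ l ∈ J, ee (l * (bt θ k p1 - bt θ k p2))‖ := by
  classical
  obtain ⟨F, hF⟩ : ∃ F, F = (Sk L k).filter fun q => Cd N X X' p1 q ∧ Cd N X X' p2 q := ⟨_, rfl⟩
  have hz : ∀ p, ‖zc κ θ k p‖ ≤ 1 := by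
    intro p
    unfold zc
    rw [norm_mul, norm_mul, norm_ee, mul_one, Complex.norm_conj]
    exact mul_le_one₀ (hκ _) (norm_nonneg _) (hκ _)
  have hmemF : ∀ q, q ∈ F ↔ ((L < q.1 ∧ q.1 ≤ 2 * L) ∧ (L < q.2 ∧ q.2 ≤ 2 * L)) ∧
      (q.1 : ℤ) - q.2 = k ∧ Cd N X X' p1 q ∧ Cd N X X' p2 q := by
    intro q
    rw [hF, mem_filter]
    unfold Sk
    rw [mem_filter, mem_product, mem_Ioc, mem_Ioc]
    tauto
  have hinj : Set.InjOn Prod.fst (F : Set (ℕ × ℕ)) := by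
    intro q hq q' hq' he
    have h3 := ((hmemF q).1 hq).2.1
    have h4 := ((hmemF q').1 hq').2.1
    have h5 : q.2 = q'.2 := by
      omega
    exact Prod.ext he h5
  refine ⟨F.image Prod.fst, ?_, ?_, ?_⟩
  · refine (card_le_card (t := Ioc L (2 * L)) ?_).trans ?_
    · intro l hl
      rw [mem_image] at hl
      obtain ⟨q, hq, rfl⟩ := hl
      rw [mem_Ioc]
      exact ((hmemF q).1 hq).1.1
    · rw [Nat.card_Ioc]; omega
  · intro a ha b hb c hac hcb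
    rw [mem_image] at ha hb ⊢
    obtain ⟨qa, hqa, rfl⟩ := ha
    obtain ⟨qb, hqb, rfl⟩ := hb
    have ha' := (hmemF qa).1 hqa
    have hb' := (hmemF qb).1 hqb
    obtain ⟨⟨⟨a1, a2⟩, a3, a4⟩, a5, a6, a7⟩ := ha'
    obtain ⟨⟨⟨b1, b2⟩, b3, b4⟩, b5, b6, b7⟩ := hb'
    obtain ⟨c', hc'⟩ : ∃ c' : ℕ, (c' : ℤ) = (c : ℤ) - k := ⟨((c : ℤ) - k).toNat, by omega⟩
    have hac' : qa.2 ≤ c' := by omega
    have hcb' : c' ≤ qb.2 := by omega
    have hCd : ∀ p : ℕ × ℤ, Cd N X X' p qa → Cd N X X' p qb → Cd N X X' p (c, c') := by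
      intro p hpa hpb
      obtain ⟨⟨u1, u2⟩, ⟨u3, u4⟩, u5, u6⟩ := hpa
      obtain ⟨⟨v1, v2⟩, ⟨v3, v4⟩, v5, v6⟩ := hpb
      have w1 : p.1 * qa.1 ≤ p.1 * c := Nat.mul_le_mul_left _ hac
      have w2 : p.1 * c ≤ p.1 * qb.1 := Nat.mul_le_mul_left _ hcb
      have w3 : p.1 * qa.2 ≤ p.1 * c' := Nat.mul_le_mul_left _ hac'
      have w4 : p.1 * c' ≤ p.1 * qb.2 := Nat.mul_le_mul_left _ hcb'
      have w1' : (p.1 : ℤ) * qa.1 ≤ (p.1 : ℤ) * c := by exact_mod_cast w1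
      have w2' : (p.1 : ℤ) * c ≤ (p.1 : ℤ) * qb.1 := by exact_mod_cast w2
      refine ⟨⟨by simp only; omega, by simp only; omega⟩, ⟨by simp only; omega,
        by simp only; omega⟩, by simp only; linarith, by simp only; linarith⟩
    refine ⟨(c, c'), (hmemF _).2 ⟨⟨⟨?_, ?_⟩, ?_, ?_⟩, ?_, hCd p1 a6 b6, hCd p2 a7 b7⟩, rfl⟩
    · simp only; omega
    · simp only; omega
    · simp only; omega
    · simp only; omega
    · simp only; omega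
  · have e1 : ∑ q ∈ Sk L k, ww N X X' κ θ p1 q * conj (ww N X X' κ θ p2 q) =
        ∑ q ∈ F, (zc κ θ k p1 * conj (zc κ θ k p2)) *
          ee ((q.1 : ℝ) * (bt θ k p1 - bt θ k p2)) := by
      rw [hF, Finset.sum_filter]
      refine Finset.sum_congr rfl fun q hq => ?_
      have hk : (q.1 : ℤ) - q.2 = k := (mem_filter.1 hq).2
      unfold ww
      rw [hk]
      by_cases c1 : Cd N X X' p1 q
      · by_cases c2 : Cd N X X' p2 q
        · rw [if_pos c1, if_pos c2, if_pos ⟨c1, c2⟩, map_mul, conj_ee]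
          have e2 : ee ((q.1 : ℝ) * (bt θ k p1 - bt θ k p2)) =
              ee ((q.1 : ℝ) * bt θ k p1) * ee (-((q.1 : ℝ) * bt θ k p2)) := by
            rw [← ee_add]
            congr 1
            ring
          rw [e2]
          ring
        · rw [if_neg c2, map_zero, mul_zero,
            if_neg (show ¬ (Cd N X X' p1 q ∧ Cd N X X' p2 q) from fun h => c2 h.2)]
      · rw [if_neg c1, zero_mul,
          if_neg (show ¬ (Cd N X X' p1 q ∧ Cd N X X' p2 q) from fun h => c1 h.1)]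
    rw [e1, ← Finset.mul_sum, norm_mul, norm_mul, Complex.norm_conj, Finset.sum_image hinj]
    refine mul_le_of_le_one_left (norm_nonneg _) ?_
    exact mul_le_one₀ (hz _) (norm_nonneg _) (hz _)

/-- the active points -/
noncomputable def Act (N M : ℕ) (κ : ℤ → ℂ) (k : ℤ) : Finset (ℕ × ℤ) := by
  classical
  exact (Ioc M (2 * M) ×ˢ Icc (-(N : ℤ)) N).filter fun p =>
    κ p.2 ≠ 0 ∧ κ (p.2 + p.1 * k) ≠ 0 ∧ |p.2 + p.1 * k| ≤ N

lemma mem_Act (N M : ℕ) (κ : ℤ → ℂ) (k : ℤ) (p : ℕ × ℤ) : p ∈ Act N M κ k ↔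
    (p ∈ Ioc M (2 * M) ×ˢ Icc (-(N : ℤ)) N) ∧ κ p.2 ≠ 0 ∧ κ (p.2 + p.1 * k) ≠ 0 ∧
      |p.2 + p.1 * k| ≤ N := by
  unfold Act
  rw [mem_filter]

lemma ww_zero (N M L X X' : ℕ) (hX' : X' ≤ N) (κ : ℤ → ℂ) (θ : ℤ → ℝ) (k : ℤ) (p : ℕ × ℤ)
    (hp : p ∈ Ioc M (2 * M) ×ˢ Icc (-(N : ℤ)) N) (hpA : p ∉ Act N M κ k) (q : ℕ × ℕ)
    (hq : q ∈ Sk L k) : ww N X X' κ θ p q = 0 := by
  have hk : (q.1 : ℤ) - q.2 = k := (mem_filter.1 hq).2
  unfold ww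
  rw [hk]
  by_cases c : Cd N X X' p q
  · rw [if_pos c]
    have hz : zc κ θ k p = 0 := by
      unfold zc
      by_cases h1 : κ p.2 = 0
      · rw [h1]; simp
      · by_cases h2 : κ (p.2 + p.1 * k) = 0
        · rw [h2]; simp
        · exfalso
          apply hpA
          rw [mem_Act]
          refine ⟨hp, h1, h2, ?_⟩
          obtain ⟨⟨u1, u2⟩, ⟨u3, u4⟩, u5, u6⟩ := c
          have e : p.2 + (p.1 : ℤ) * k = (p.2 + p.1 * q.1) - ((p.1 * q.2 : ℕ) : ℤ) := by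
            rw [← hk]; push_cast; ring
          rw [e, abs_le]
          constructor
          · omega
          · omega
    rw [hz, zero_mul]
  · rw [if_neg c]

lemma sig2 (N M L X X' : ℕ) (hX' : X' ≤ N) (κ : ℤ → ℂ) (θ : ℤ → ℝ) (hκ : ∀ h, ‖κ h‖ ≤ 1)
    (τ : ℝ) (hτ : 0 < τ) :
    ∑ q ∈ Ioc L (2 * L) ×ˢ Ioc L (2 * L),
      ‖∑ p ∈ Ioc M (2 * M) ×ˢ Icc (-(N : ℤ)) N, ww N X X' κ θ p q‖ ^ 2 ≤
      ∑ k ∈ Icc (-(L : ℤ)) L, ∑ p1 ∈ Act N M κ k, ∑ p2 ∈ Act N M κ k,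
        (if nn (bt θ k p1 - bt θ k p2) ≤ τ then (L : ℝ) else 1 / (2 * τ)) := by
  classical
  obtain ⟨Ω, hΩ⟩ : ∃ Ω, Ω = Ioc M (2 * M) ×ˢ Icc (-(N : ℤ)) N := ⟨_, rfl⟩
  rw [← hΩ]
  have hc : ((∑ q ∈ Ioc L (2 * L) ×ˢ Ioc L (2 * L), ‖∑ p ∈ Ω, ww N X X' κ θ p q‖ ^ 2 : ℝ) : ℂ) =
      ∑ k ∈ Icc (-(L : ℤ)) L, ∑ p1 ∈ Act N M κ k, ∑ p2 ∈ Act N M κ k,
        ∑ q ∈ Sk L k, ww N X X' κ θ p1 q * conj (ww N X X' κ θ p2 q) := by
    rw [Complex.ofReal_sum, sum_k]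
    refine Finset.sum_congr rfl fun k _ => ?_
    have hsub : Act N M κ k ⊆ Ω := by
      intro p hp
      rw [hΩ]
      exact ((mem_Act N M κ k p).1 hp).1
    have e1 : ∀ q ∈ Sk L k, ((‖∑ p ∈ Ω, ww N X X' κ θ p q‖ ^ 2 : ℝ) : ℂ) =
        ∑ p1 ∈ Act N M κ k, ∑ p2 ∈ Act N M κ k,
          ww N X X' κ θ p1 q * conj (ww N X X' κ θ p2 q) := by
      intro q hq
      have e2 : ∑ p ∈ Ω, ww N X X' κ θ p q = ∑ p ∈ Act N M κ k, ww N X X' κ θ p q := by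
        symm
        refine Finset.sum_subset hsub fun p hp hpA => ?_
        rw [hΩ] at hp
        exact ww_zero N M L X X' hX' κ θ k p hp hpA q hq
      rw [e2]
      exact sq_sum _ _
    rw [Finset.sum_congr rfl e1, Finset.sum_comm]
    refine Finset.sum_congr rfl fun p1 _ => ?_
    rw [Finset.sum_comm]
  have h0 : 0 ≤ ∑ q ∈ Ioc L (2 * L) ×ˢ Ioc L (2 * L), ‖∑ p ∈ Ω, ww N X X' κ θ p q‖ ^ 2 :=
    Finset.sum_nonneg fun q _ => by positivity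
  have h1 : ∑ q ∈ Ioc L (2 * L) ×ˢ Ioc L (2 * L), ‖∑ p ∈ Ω, ww N X X' κ θ p q‖ ^ 2 =
      ‖((∑ q ∈ Ioc L (2 * L) ×ˢ Ioc L (2 * L), ‖∑ p ∈ Ω, ww N X X' κ θ p q‖ ^ 2 : ℝ) : ℂ)‖ := by
    rw [Complex.norm_real, Real.norm_of_nonneg h0]
  rw [h1, hc]
  refine (norm_sum_le _ _).trans (Finset.sum_le_sum fun k _ => ?_)
  refine (norm_sum_le _ _).trans (Finset.sum_le_sum fun p1 _ => ?_)
  refine (norm_sum_le _ _).trans (Finset.sum_le_sum fun p2 _ => ?_)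
  obtain ⟨J, hJ1, hJ2, hJ3⟩ := pair_sum N L X X' κ θ hκ k p1 p2
  refine hJ3.trans ?_
  split_ifs with h
  · refine (norm_sum_ee_le _ J).trans ?_
    exact_mod_cast hJ1
  · push Not at h
    have h2 := geom (bt θ k p1 - bt θ k p2) J hJ2
    rw [le_div_iff₀ (by positivity)]
    refine le_trans ?_ h2
    exact mul_le_mul_of_nonneg_left (by linarith) (norm_nonneg _)

lemma choose_alpha (N M : ℕ) (κ : ℤ → ℂ) (θ : ℤ → ℝ) (τ : ℝ) :
    ∃ α : ℤ → ℝ, ∀ k, ∀ p ∈ Act N M κ k,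
      ((Act N M κ k).filter fun p' => nn (bt θ k p' - bt θ k p) ≤ τ).card ≤
        ((Act N M κ k).filter fun p' => nn (bt θ k p' - α k) ≤ τ).card := by
  have h : ∀ k : ℤ, ∃ a : ℝ, ∀ p ∈ Act N M κ k,
      ((Act N M κ k).filter fun p' => nn (bt θ k p' - bt θ k p) ≤ τ).card ≤
        ((Act N M κ k).filter fun p' => nn (bt θ k p' - a) ≤ τ).card := by
    intro k
    rcases (Act N M κ k).eq_empty_or_nonempty with h | h
    · refine ⟨0, fun p hp => ?_⟩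
      rw [h] at hp
      simp at hp
    · obtain ⟨p, hp, hmax⟩ := Finset.exists_max_image (Act N M κ k)
        (fun p => ((Act N M κ k).filter fun p' => nn (bt θ k p' - bt θ k p) ≤ τ).card) h
      exact ⟨bt θ k p, hmax⟩
  choose α hα using h
  exact ⟨α, hα⟩

lemma card_Act (N M : ℕ) (hN : 1 ≤ N) (κ : ℤ → ℂ) (k : ℤ) :
    ((Act N M κ k).card : ℝ) ≤ 3 * M * N := by
  have h1 : (Act N M κ k).card ≤ (Ioc M (2 * M) ×ˢ Icc (-(N : ℤ)) N).card := by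
    refine card_le_card fun p hp => ?_
    exact ((mem_Act N M κ k p).1 hp).1
  rw [card_product, Nat.card_Ioc, Int.card_Icc] at h1
  have h2 : 2 * M - M = M := by omega
  have h3 : ((N : ℤ) + 1 - -(N : ℤ)).toNat = 2 * N + 1 := by omega
  rw [h2, h3] at h1
  have h4 : ((Act N M κ k).card : ℝ) ≤ M * (2 * N + 1) := by exact_mod_cast h1
  have h5 : (1 : ℝ) ≤ N := by exact_mod_cast hN
  have h6 : (0 : ℝ) ≤ M := Nat.cast_nonneg _
  nlinarith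

theorem t_CS : S_CS := by
  classical
  refine ⟨13, ?_⟩
  intro T N M L X X' E κ θ a b A B hT hM hL hML hX' hE hκ hA hB ha hb hBB
  have hN1 : 1 ≤ N := le_trans (Nat.mul_le_mul hM hL) hML
  have hN0 : (0 : ℝ) < N := by exact_mod_cast hN1
  have hM0 : (0 : ℝ) < M := by exact_mod_cast hM
  have hL0 : (0 : ℝ) < L := by exact_mod_cast hL
  have hT0 : (0 : ℝ) < T := by linarith
  obtain ⟨τ, hτd⟩ : ∃ τ : ℝ, τ = T ^ 13 / L := ⟨_, rfl⟩
  have hτ : 0 < τ := by rw [hτd]; positivity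
  obtain ⟨α, hα⟩ := choose_alpha N M κ θ τ
  obtain ⟨S1, hS1⟩ : ∃ S1 : ℝ, S1 = ∑ p ∈ Ioc M (2 * M) ×ˢ Icc 1 N,
    ‖∑ l ∈ Ioc L (2 * L), b l * uu X X' κ θ l p‖ ^ 2 := ⟨_, rfl⟩
  obtain ⟨S2, hS2⟩ : ∃ S2 : ℝ, S2 = ∑ q ∈ Ioc L (2 * L) ×ˢ Ioc L (2 * L),
      ‖∑ p ∈ Ioc M (2 * M) ×ˢ Icc (-(N : ℤ)) N, ww N X X' κ θ p q‖ ^ 2 := ⟨_, rfl⟩
  obtain ⟨g, hg⟩ : ∃ g : ℝ, g = ∑ k ∈ Icc (-(L : ℤ)) L,
    ((((Act N M κ k).filter fun p' => nn (bt θ k p' - α k) ≤ τ).card : ℕ) : ℝ) := ⟨_, rfl⟩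
  have hS10 : 0 ≤ S1 := by rw [hS1]; exact Finset.sum_nonneg fun p _ => by positivity
  have hg0 : 0 ≤ g := by rw [hg]; exact Finset.sum_nonneg fun k _ => Nat.cast_nonneg _
  -- the first Cauchy-Schwarz inequality
  have h1 : ‖BB M L X X' a b (FF N E κ θ)‖ ^ 2 ≤ A * M * (N * T ^ 2) * S1 := by
    rw [BB_eq]
    refine (cs _ _ _).trans ?_
    rw [← hS1]
    refine mul_le_mul_of_nonneg_right ?_ hS10
    rw [Finset.sum_product]
    have e1 : ∀ m ∈ Ioc M (2 * M), ∑ y ∈ Icc 1 N, ‖a m * E y‖ ^ 2 ≤ ‖a m‖ ^ 2 * (N * T ^ 2) := by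
      intro m _
      have e2 : ∀ y ∈ Icc 1 N, ‖a m * E y‖ ^ 2 ≤ ‖a m‖ ^ 2 * T ^ 2 := by
        intro y hy
        rw [norm_mul, mul_pow]
        exact mul_le_mul_of_nonneg_left (pow_le_pow_left₀ (norm_nonneg _) (hE y hy) 2)
          (by positivity)
      refine (Finset.sum_le_sum e2).trans (le_of_eq ?_)
      rw [Finset.sum_const, Nat.card_Icc, nsmul_eq_mul]
      simp only [Nat.add_sub_cancel]
      ring
    refine (Finset.sum_le_sum e1).trans ?_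
    rw [← Finset.sum_mul]
    exact mul_le_mul_of_nonneg_right ha (by positivity)
  -- the second Cauchy-Schwarz inequality
  have h2 : S1 ^ 2 ≤ (B * L) ^ 2 * S2 := by
    have hc : ((S1 : ℝ) : ℂ) = ∑ q ∈ Ioc L (2 * L) ×ˢ Ioc L (2 * L),
        (b q.1 * conj (b q.2)) *
          ∑ p ∈ Ioc M (2 * M) ×ˢ Icc 1 N, uu X X' κ θ q.1 p * conj (uu X X' κ θ q.2 p) := by
      rw [hS1, Complex.ofReal_sum]
      rw [Finset.sum_congr rfl fun p _ => sq_sum (Ioc L (2 * L)) fun l => b l * uu X X' κ θ l p]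
      rw [Finset.sum_comm, Finset.sum_product]
      refine Finset.sum_congr rfl fun l _ => ?_
      rw [Finset.sum_comm]
      refine Finset.sum_congr rfl fun l' _ => ?_
      rw [Finset.mul_sum]
      refine Finset.sum_congr rfl fun p _ => ?_
      rw [map_mul]
      ring
    have h3 : S1 ^ 2 = ‖((S1 : ℝ) : ℂ)‖ ^ 2 := by
      rw [Complex.norm_real, Real.norm_of_nonneg hS10]
    rw [h3, hc]
    refine (cs _ _ _).trans ?_
    have h4 : ∑ q ∈ Ioc L (2 * L) ×ˢ Ioc L (2 * L), ‖∑ p ∈ Ioc M (2 * M) ×ˢ Icc 1 N,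
        uu X X' κ θ q.1 p * conj (uu X X' κ θ q.2 p)‖ ^ 2 = S2 := by
      rw [hS2]
      refine Finset.sum_congr rfl fun q _ => ?_
      rw [change N M X X' hX' κ θ q]
    rw [h4]
    have hS20 : 0 ≤ S2 := by rw [hS2]; exact Finset.sum_nonneg fun q _ => by positivity
    refine mul_le_mul_of_nonneg_right ?_ hS20
    have h5 : ∑ q ∈ Ioc L (2 * L) ×ˢ Ioc L (2 * L), ‖b q.1 * conj (b q.2)‖ ^ 2 =
        (∑ l ∈ Ioc L (2 * L), ‖b l‖ ^ 2) ^ 2 := by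
      rw [Finset.sum_product, sq, Finset.sum_mul_sum]
      refine Finset.sum_congr rfl fun l _ => Finset.sum_congr rfl fun l' _ => ?_
      rw [norm_mul, Complex.norm_conj, mul_pow]
    rw [h5]
    exact pow_le_pow_left₀ (Finset.sum_nonneg fun l _ => by positivity) hb 2
  -- the count
  have h3 : S2 ≤ 3 * M * N * L * g + 27 / 2 * ((L : ℝ) ^ 2 * M ^ 2 * N ^ 2) / T ^ 13 := by
    rw [hS2]
    refine (sig2 N M L X X' hX' κ θ hκ τ hτ).trans ?_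
    have hk : ∀ k ∈ Icc (-(L : ℤ)) L, ∑ p1 ∈ Act N M κ k, ∑ p2 ∈ Act N M κ k,
        (if nn (bt θ k p1 - bt θ k p2) ≤ τ then (L : ℝ) else 1 / (2 * τ)) ≤
        3 * M * N * (L * ((((Act N M κ k).filter fun p' => nn (bt θ k p' - α k) ≤ τ).card : ℕ) : ℝ) +
          3 * M * N * (1 / (2 * τ))) := by
      intro k _
      rw [Finset.sum_comm]
      have hp : ∀ p2 ∈ Act N M κ k, ∑ p1 ∈ Act N M κ k,
          (if nn (bt θ k p1 - bt θ k p2) ≤ τ then (L : ℝ) else 1 / (2 * τ)) ≤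
          L * ((((Act N M κ k).filter fun p' => nn (bt θ k p' - α k) ≤ τ).card : ℕ) : ℝ) +
          3 * M * N * (1 / (2 * τ)) := by
        intro p2 hp2
        have q1 : ∀ p1 ∈ Act N M κ k,
            (if nn (bt θ k p1 - bt θ k p2) ≤ τ then (L : ℝ) else 1 / (2 * τ)) ≤
            (if nn (bt θ k p1 - bt θ k p2) ≤ τ then (L : ℝ) else 0) + 1 / (2 * τ) := by
          intro p1 _
          split_ifs
          · have : 0 ≤ 1 / (2 * τ) := by positivity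
            linarith
          · linarith
        refine (Finset.sum_le_sum q1).trans ?_
        rw [Finset.sum_add_distrib, ← Finset.sum_filter, Finset.sum_const, Finset.sum_const,
          nsmul_eq_mul, nsmul_eq_mul]
        have q2 : ((((Act N M κ k).filter fun p' => nn (bt θ k p' - bt θ k p2) ≤ τ).card : ℕ) : ℝ) ≤
            ((((Act N M κ k).filter fun p' => nn (bt θ k p' - α k) ≤ τ).card : ℕ) : ℝ) := by
          exact_mod_cast hα k p2 hp2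
        have q3 := mul_le_mul_of_nonneg_right q2 hL0.le
        have q4 := mul_le_mul_of_nonneg_right (card_Act N M hN1 κ k)
          (by positivity : 0 ≤ 1 / (2 * τ))
        linarith
      refine (Finset.sum_le_sum hp).trans ?_
      rw [Finset.sum_const, nsmul_eq_mul]
      exact mul_le_mul_of_nonneg_right (card_Act N M hN1 κ k) (by positivity)
    refine (Finset.sum_le_sum hk).trans ?_
    rw [← Finset.mul_sum, Finset.sum_add_distrib, ← Finset.mul_sum, ← hg, Finset.sum_const,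
      Int.card_Icc, nsmul_eq_mul]
    have e1 : ((L : ℤ) + 1 - -(L : ℤ)).toNat = 2 * L + 1 := by omega
    rw [e1]
    have e2 : 1 / (2 * τ) = L / (2 * T ^ 13) := by
      rw [hτd]
      field_simp
    rw [e2]
    have e3 : (((2 * L + 1 : ℕ) : ℝ)) ≤ 3 * L := by
      push_cast
      have : (1 : ℝ) ≤ L := by exact_mod_cast hL
      linarith
    have e4 : 3 * (M : ℝ) * N * ((((2 * L + 1 : ℕ) : ℝ)) * (3 * M * N * (L / (2 * T ^ 13)))) ≤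
        3 * M * N * (3 * L * (3 * M * N * (L / (2 * T ^ 13)))) := by
      refine mul_le_mul_of_nonneg_left ?_ (by positivity)
      exact mul_le_mul_of_nonneg_right e3 (by positivity)
    have e5 : 3 * (M : ℝ) * N * (3 * L * (3 * M * N * (L / (2 * T ^ 13)))) =
        27 / 2 * ((L : ℝ) ^ 2 * M ^ 2 * N ^ 2) / T ^ 13 := by
      field_simp
      ring
    rw [mul_add]
    have e6 : 3 * (M : ℝ) * N * (L * g) = 3 * M * N * L * g := by ring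
    linarith
  have hML' : (M : ℝ) * L ≤ N := by exact_mod_cast hML
  have hfin := arith A B T N M L S1 S2 g _ hT hN0 hM0 hL0 hML' hA hB hS10 hg0 hBB h1 h2 h3
  refine ⟨α, ((Icc (-(L : ℤ)) L).sigma fun k =>
    (Act N M κ k).filter fun p' => nn (bt θ k p' - α k) ≤ τ).image
      (fun x : (_ : ℤ) × (ℕ × ℤ) => (x.1, (x.2.1 : ℤ), x.2.2)), ?_, ?_⟩
  · rw [Finset.card_image_of_injective, Finset.card_sigma]
    · push_cast
      rw [← hg]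
      exact hfin
    · rintro ⟨k, m, h⟩ ⟨k', m', h'⟩ he
      simp only [Prod.mk.injEq, Nat.cast_inj] at he
      obtain ⟨rfl, rfl, rfl⟩ := he
      rfl
  · intro x hx
    rw [mem_image] at hx
    obtain ⟨⟨k, m, h⟩, hx, rfl⟩ := hx
    rw [mem_sigma, mem_filter, mem_Act, mem_product, mem_Ioc, mem_Icc, mem_Icc] at hx
    obtain ⟨⟨k1, k2⟩, ⟨⟨⟨m1, m2⟩, h1', h2'⟩, c1, c2, c3⟩, c4⟩ := hx
    simp only at k1 k2 m1 m2 h1' h2' c1 c2 c3 c4 ⊢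
    refine ⟨abs_le.2 ⟨k1, k2⟩, by exact_mod_cast m1, by exact_mod_cast m2,
      abs_le.2 ⟨h1', h2'⟩, c3, c1, c2, ?_⟩
    rw [hτd] at c4
    unfold bt at c4
    simp only at c4
    rw [Int.cast_natCast]
    exact c4

end Pool.Agent.E8helper62.GB
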