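import Pool.Agent.E8helper66.GB.Stm

set_option autoImplicit false

/-! Two Cauchy-Schwarz steps and geometric sums: preliminaries. -/

namespace Pool.Agent.E8helper62.GB

open Finset
open Pool.Agent.H807R2.Dav (ee)
open Pool.Agent.E8helper66.GB
open scoped ComplexConjugate

lemma four_nn (x : ℝ) : 4 * nn x ≤ Pool.Agent.H807R2.Dav.dd x := by
  have h1 : nn x = |x - round x| := by
    unfold nn
    exact UnitAddCircle.norm_eq
  have h2 : Pool.Agent.H807R2.Dav.dd x = Pool.Agent.H807R2.Dav.dd (x - round x) := by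
    have := Pool.Agent.H807R2.Dav.dd_add_int (x - round x) (round x)
    rw [sub_add_cancel] at this
    exact this
  have h3 : Pool.Agent.H807R2.Dav.dd (x - round x) = Pool.Agent.H807R2.Dav.dd |x - round x| := by
    rcases abs_choice (x - round x) with h | h
    · rw [h]
    · rw [h, Pool.Agent.H807R2.Dav.dd_neg]
  have h4 : |x - round x| ≤ 1 / 2 := abs_sub_round x
  have h5 := Pool.Agent.H807R2.Dav.dd_ge (abs_nonneg (x - round x)) (by linarith)
  have h6 : min |x - round x| (1 - |x - round x|) = |x - round x| := min_eq_left (by linarith)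
  rw [h1, h2, h3]
  rw [h6] at h5
  exact h5

lemma nn_nonneg (x : ℝ) : 0 ≤ nn x := norm_nonneg _

/-- geometric sums over intervals -/
lemma geom (β : ℝ) (J : Finset ℕ) (hJ : ∀ a ∈ J, ∀ b ∈ J, ∀ c, a ≤ c → c ≤ b → c ∈ J) :
    ‖∑ l ∈ J, ee (l * β)‖ * (2 * nn β) ≤ 1 := by
  rcases J.eq_empty_or_nonempty with h | h
  · rw [h]; simp
  · obtain ⟨a, ha⟩ : ∃ a, a = J.min' h := ⟨_, rfl⟩
    obtain ⟨b, hb⟩ : ∃ b, b = J.max' h + 1 := ⟨_, rfl⟩
    have haJ : a ∈ J := by rw [ha]; exact J.min'_mem h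
    have hJ' : J = Ico a b := by
      ext c
      rw [mem_Ico]
      constructor
      · intro hc
        have h1 := J.min'_le c hc
        have h2 := J.le_max' c hc
        omega
      · intro hc
        exact hJ a haJ (J.max' h) (J.max'_mem h) c hc.1 (by omega)
    have hab : a ≤ b := by
      have := J.le_max' a haJ
      omega
    have htel : (∑ l ∈ Ico a b, ee (l * β)) * (1 - ee β) = ee (a * β) - ee (b * β) := by
      rw [Finset.sum_mul]
      have : ∀ l ∈ Ico a b, ee ((l : ℝ) * β) * (1 - ee β) =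
          -(ee (((l + 1 : ℕ) : ℝ) * β) - ee ((l : ℝ) * β)) := by
        intro l _
        have : ((l + 1 : ℕ) : ℝ) * β = (l : ℝ) * β + β := by push_cast; ring
        rw [this, Pool.Agent.H807R2.Dav.ee_add]
        ring
      rw [Finset.sum_congr rfl this, Finset.sum_neg_distrib,
        Finset.sum_Ico_sub (fun l : ℕ => ee ((l : ℝ) * β)) hab]
      ring
    have h1 : ‖∑ l ∈ Ico a b, ee (l * β)‖ * Pool.Agent.H807R2.Dav.dd β ≤ 2 := by
      unfold Pool.Agent.H807R2.Dav.dd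
      rw [← norm_mul, htel]
      refine (norm_sub_le _ _).trans ?_
      rw [Pool.Agent.H807R2.Dav.norm_ee, Pool.Agent.H807R2.Dav.norm_ee]
      norm_num
    have h2 := mul_le_mul_of_nonneg_left (four_nn β) (norm_nonneg (∑ l ∈ Ico a b, ee (l * β)))
    rw [hJ']
    linarith

lemma norm_sum_ee_le (β : ℝ) (J : Finset ℕ) : ‖∑ l ∈ J, ee (l * β)‖ ≤ J.card := by
  refine (norm_sum_le _ _).trans ?_
  rw [Finset.sum_congr rfl fun l _ => Pool.Agent.H807R2.Dav.norm_ee _]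
  simp

lemma cs {ι : Type} (s : Finset ι) (f g : ι → ℂ) :
    ‖∑ i ∈ s, f i * g i‖ ^ 2 ≤ (∑ i ∈ s, ‖f i‖ ^ 2) * ∑ i ∈ s, ‖g i‖ ^ 2 := by
  have h1 : ‖∑ i ∈ s, f i * g i‖ ≤ ∑ i ∈ s, ‖f i‖ * ‖g i‖ := by
    refine (norm_sum_le _ _).trans (le_of_eq ?_)
    exact Finset.sum_congr rfl fun i _ => norm_mul _ _
  exact (pow_le_pow_left₀ (norm_nonneg _) h1 2).trans (Finset.sum_mul_sq_le_sq_mul_sq s _ _)

lemma sq_sum {ι : Type} (s : Finset ι) (f : ι → ℂ) :
    ((‖∑ i ∈ s, f i‖ ^ 2 : ℝ) : ℂ) = ∑ i ∈ s, ∑ j ∈ s, f i * conj (f j) := by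
  push_cast
  rw [← Complex.mul_conj', map_sum, Finset.sum_mul_sum]

/-- the final arithmetic -/
lemma arith (A B T n m l S1 S2 g NB : ℝ) (hT : 2 ≤ T) (hn : 0 < n) (hm : 0 < m) (hl : 0 < l)
    (hml : m * l ≤ n) (hA : 0 ≤ A) (hB : 0 ≤ B) (hS1 : 0 ≤ S1) (hg : 0 ≤ g)
    (h0 : A * B * (n ^ 2 / T) ^ 2 < NB) (h1 : NB ≤ A * m * (n * T ^ 2) * S1)
    (h2 : S1 ^ 2 ≤ (B * l) ^ 2 * S2)
    (h3 : S2 ≤ 3 * m * n * l * g + 27 / 2 * (l ^ 2 * m ^ 2 * n ^ 2) / T ^ 13) :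
    n ^ 2 / T ^ 13 ≤ g := by
  have hT0 : 0 < T := by linarith
  have hA0 : 0 < A := by
    rcases hA.eq_or_lt with h | h
    · rw [← h] at h0 h1
      simp only [zero_mul] at h0 h1
      linarith
    · exact h
  have h4 : A * B * (n ^ 2 / T) ^ 2 < A * m * (n * T ^ 2) * S1 := h0.trans_le h1
  have h5 : B * n ^ 3 < T ^ 4 * m * S1 := by
    have e1 : A * B * (n ^ 2 / T) ^ 2 = (A * n / T ^ 2) * (B * n ^ 3) := by
      field_simp
    have e2 : A * m * (n * T ^ 2) * S1 = (A * n / T ^ 2) * (T ^ 4 * m * S1) := by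
      field_simp
    rw [e1, e2] at h4
    exact lt_of_mul_lt_mul_left h4 (by positivity)
  have hB0 : 0 < B := by
    rcases hB.eq_or_lt with h | h
    · rw [← h] at h2 h5
      have : S1 ^ 2 ≤ 0 := by
        refine h2.trans (le_of_eq ?_)
        ring
      have : S1 = 0 := by nlinarith
      rw [this] at h5
      simp at h5
    · exact h
  have h6 : (B * n ^ 3) ^ 2 < (T ^ 4 * m * S1) ^ 2 :=
    pow_lt_pow_left₀ h5 (by positivity) (by norm_num)
  have h7 : (T ^ 4 * m * S1) ^ 2 ≤ B ^ 2 * (T ^ 8 * (m * l) ^ 2 * S2) := by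
    have := mul_le_mul_of_nonneg_left h2 (by positivity : 0 ≤ (T ^ 4 * m) ^ 2)
    refine le_trans (le_of_eq (by ring)) (this.trans (le_of_eq (by ring)))
  have h8 : n ^ 6 < T ^ 8 * (m * l) ^ 2 * S2 := by
    have h9 : B ^ 2 * n ^ 6 < B ^ 2 * (T ^ 8 * (m * l) ^ 2 * S2) := by
      refine lt_of_eq_of_lt (by ring) (h6.trans_le h7)
    exact lt_of_mul_lt_mul_left h9 (by positivity)
  have hS2 : 0 < S2 := by
    by_contra hc
    push Not at hc
    have h9 : T ^ 8 * (m * l) ^ 2 * S2 ≤ 0 := mul_nonpos_of_nonneg_of_nonpos (by positivity) hc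
    have : 0 < n ^ 6 := by positivity
    linarith
  have hml0 : 0 < m * l := mul_pos hm hl
  have hml2 : (m * l) ^ 2 ≤ n ^ 2 := pow_le_pow_left₀ hml0.le hml 2
  have h9 : n ^ 4 < T ^ 8 * S2 := by
    have h10 : T ^ 8 * (m * l) ^ 2 * S2 ≤ n ^ 2 * (T ^ 8 * S2) := by
      have := mul_le_mul_of_nonneg_right hml2 (by positivity : 0 ≤ T ^ 8 * S2)
      linarith
    have h11 : n ^ 2 * n ^ 4 < n ^ 2 * (T ^ 8 * S2) := by
      refine lt_of_eq_of_lt (by ring) (h8.trans_le h10)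
    exact lt_of_mul_lt_mul_left h11 (by positivity)
  have hT5 : 32 ≤ T ^ 5 := by
    have := pow_le_pow_left₀ (by norm_num) hT 5
    linarith
  have h12 : T ^ 8 * S2 ≤ 3 * n ^ 2 * (T ^ 8 * g) + n ^ 4 / 2 := by
    have h13 := mul_le_mul_of_nonneg_left h3 (by positivity : 0 ≤ T ^ 8)
    have h14 : T ^ 8 * (3 * m * n * l * g) ≤ 3 * n ^ 2 * (T ^ 8 * g) := by
      have := mul_le_mul_of_nonneg_right hml (by positivity : 0 ≤ 3 * n * (T ^ 8 * g))
      refine le_trans (le_of_eq (by ring)) (this.trans (le_of_eq (by ring)))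
    have h15 : T ^ 8 * (27 / 2 * (l ^ 2 * m ^ 2 * n ^ 2) / T ^ 13) ≤ n ^ 4 / 2 := by
      have e : T ^ 8 * (27 / 2 * (l ^ 2 * m ^ 2 * n ^ 2) / T ^ 13) =
          27 / 2 * ((m * l) ^ 2 * n ^ 2) / T ^ 5 := by
        field_simp
      rw [e, div_le_iff₀ (by positivity)]
      have h16 : (m * l) ^ 2 * n ^ 2 ≤ n ^ 2 * n ^ 2 :=
        mul_le_mul_of_nonneg_right hml2 (by positivity)
      have h17 : n ^ 4 / 2 * 32 ≤ n ^ 4 / 2 * T ^ 5 := mul_le_mul_of_nonneg_left hT5 (by positivity)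
      nlinarith
    linarith
  have h18 : n ^ 4 / 2 < 3 * n ^ 2 * (T ^ 8 * g) := by linarith
  have h19 : n ^ 2 < 6 * (T ^ 8 * g) := by
    have h20 : n ^ 2 / 2 * n ^ 2 < n ^ 2 / 2 * (6 * (T ^ 8 * g)) := by
      refine lt_of_eq_of_lt (by ring) (h18.trans_le (le_of_eq (by ring)))
    exact lt_of_mul_lt_mul_left h20 (by positivity)
  rw [div_le_iff₀ (by positivity)]
  have h21 : 6 * (T ^ 8 * g) ≤ T ^ 5 * (T ^ 8 * g) :=
    mul_le_mul_of_nonneg_right (by linarith) (by positivity)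
  refine h19.le.trans (h21.trans (le_of_eq (by ring)))

end Pool.Agent.E8helper62.GB
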